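import Pool.Agent.W_626a77_h71.CoreFin

/-!
Choice of parameters (MP_626a77_co, helper71).
-/

set_option autoImplicit false

open scoped Pointwise
open Module

namespace Pool.Agent.W_626a77_h71

/-- The quasi-optimal Freiman-Ruzsa theorem in `ℤ`, from the core theorem. -/
theorem core_final (C : ℝ) (hC : 1 ≤ C) (h : Core C) :
    ∃ C' : ℝ, 0 < C' ∧ ∀ (K : ℝ) (A : Finset ℤ), A.Nonempty →
      (((A + A).card : ℝ) ≤ K * (A.card : ℝ)) →
      ∃ (d : ℕ) (B : Set (Fin d → ℝ)) (v : Fin d → ℤ) (T : Finset ℤ),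
        (d : ℝ) ≤ C' * (1 + Real.log K) ∧
        Convex ℝ B ∧ IsCompact B ∧ (interior B).Nonempty ∧ (∀ x ∈ B, -x ∈ B) ∧
        ({x : Fin d → ℤ | (fun i => (x i : ℝ)) ∈ B}.ncard ≤ A.card) ∧
        ((T.card : ℝ) ≤ Real.exp (C' * (1 + Real.log K) * (1 + Real.log (1 + Real.log K)))) ∧
        ∀ a ∈ A, ∃ t ∈ T, ∃ x : Fin d → ℤ,
          (fun i => (x i : ℝ)) ∈ B ∧ a = t + ∑ i, v i * x i := by
  refine ⟨12 * C * (101 * C), by positivity, ?_⟩
  intro K A hA hAA
  have hA0 : (0:ℝ) < A.card := by exact_mod_cast Finset.card_pos.2 hA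
  have hK : 1 ≤ K := by
    have h1 : (A.card : ℝ) ≤ (A + A).card := by
      exact_mod_cast Finset.card_le_card_add_right hA
    have h2 : (1:ℝ) * A.card ≤ K * A.card := by rw [one_mul]; exact h1.trans hAA
    exact le_of_mul_le_mul_right h2 hA0
  have hlogK : 0 ≤ Real.log K := Real.log_nonneg hK
  obtain ⟨κ, hκdef⟩ : ∃ κ, κ = 1 + Real.log K := ⟨_, rfl⟩
  have hκ : 1 ≤ κ := by linarith
  have hκ0 : 0 < κ := by linarith
  have hAA' : ((A + A).card : ℝ) ≤ Real.exp κ * A.card := by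
    refine hAA.trans ?_
    gcongr
    have : K = Real.exp (Real.log K) := (Real.exp_log (by linarith)).symm
    rw [this, Real.exp_le_exp]
    linarith
  have hlκ : 0 ≤ Real.log κ := Real.log_nonneg hκ
  obtain ⟨t, ht⟩ : ∃ t, t = 1 + Real.log κ := ⟨_, rfl⟩
  have ht1 : 1 ≤ t := by linarith
  set ν : ℕ := ⌈100 * C * t⌉₊ with hν
  have hν1 : 100 * C * t ≤ ν := Nat.le_ceil _
  have hCt : 1 ≤ C * t := by nlinarith
  have hν2 : (ν : ℝ) ≤ 101 * C * t := by
    have := (Nat.ceil_lt_add_one (by nlinarith : 0 ≤ 100 * C * t)).le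
    nlinarith
  have hν0 : 1 ≤ ν := by
    have : (1:ℝ) ≤ ν := by nlinarith
    exact_mod_cast this
  have hlog2 : (0.69 : ℝ) < Real.log 2 := lt_trans (by norm_num) Real.log_two_gt_d9
  have hlog2' : 0 < Real.log 2 := by linarith
  set D : ℕ := ⌊C * κ / Real.log 2⌋₊ with hD
  have hD1 : C * κ < Real.log 2 * (D + 1) := by
    have := Nat.lt_floor_add_one (C * κ / Real.log 2)
    rw [div_lt_iff₀ hlog2'] at this
    linarith
  have hD2 : (D : ℝ) ≤ 2 * (C * κ) := by
    have h1 := Nat.floor_le (by positivity : 0 ≤ C * κ / Real.log 2)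
    refine h1.trans ?_
    rw [div_le_iff₀ hlog2']
    have : 0 ≤ C * κ := by positivity
    nlinarith
  have hCκ : 1 ≤ C * κ := by nlinarith
  have hD3 : 24 * (D + 1) ≤ 2 ^ ν := by
    have h1 : (24 * ((D:ℝ) + 1)) ≤ 72 * C * κ := by nlinarith
    have h2 : (72 * C * κ : ℝ) ≤ 2 ^ ν := by
      have h3 : (2:ℝ) ^ ν = Real.exp (Real.log 2 * ν) := by
        rw [Real.exp_mul, Real.exp_log (by norm_num), Real.rpow_natCast]
      have h4 : 72 * C * κ = Real.exp (Real.log (72 * C) + Real.log κ) := by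
        rw [Real.exp_add, Real.exp_log (by positivity), Real.exp_log hκ0]
      rw [h3, h4, Real.exp_le_exp]
      have h5 : Real.log (72 * C) ≤ 6 + C := by
        rw [Real.log_mul (by norm_num) (by positivity)]
        have e1 : Real.log 72 ≤ 7 * Real.log 2 := by
          rw [← Real.log_rpow (by norm_num)]
          apply Real.log_le_log (by norm_num)
          norm_num
        have e2 := Real.log_two_lt_d9
        have e3 := Real.log_le_sub_one_of_pos (by linarith : 0 < C)
        linarith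
      have h6 : 69 * (C * t) ≤ Real.log 2 * ν := by
        calc 69 * (C * t) = 0.69 * (100 * C * t) := by ring
          _ ≤ Real.log 2 * ν := by
              apply mul_le_mul hlog2.le hν1 (by nlinarith) hlog2'.le
      have h7 : C * t = C + C * Real.log κ := by rw [ht]; ring
      have h8 : Real.log κ ≤ C * Real.log κ := le_mul_of_one_le_left hlκ hC
      have h9 : 0 ≤ C * Real.log κ := by positivity
      rw [h7] at h6
      linarith
    have h10 : ((24 * (D + 1) : ℕ) : ℝ) ≤ ((2 ^ ν : ℕ) : ℝ) := by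
      push_cast
      exact h1.trans h2
    exact_mod_cast h10
  have hνC : C * (1 + Real.log κ) ≤ ν := by
    rw [← ht]
    nlinarith
  obtain ⟨d, B, v, T, r1, r2, r3, r4, r5, r6, r7, r8⟩ :=
    core_concl C hC h A κ ν D hA hκ hAA' hν0 hνC hD1 hD3
  have hCC : C * 1 ≤ 12 * C * (101 * C) / 2 := by
    nlinarith
  refine ⟨d, B, v, T, ?_, r2, r3, r4, r5, r6, r7.trans ?_, r8⟩
  · rw [← hκdef]
    have : (d : ℝ) ≤ D := by exact_mod_cast r1
    have h2 : 2 * (C * κ) ≤ 12 * C * (101 * C) * κ := by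
      nlinarith
    linarith
  · rw [← hκdef, ← ht]
    have e5 : (5:ℝ) ^ (2 * D) ≤ Real.exp (4 * D) := by
      have h1 : (5:ℝ) ≤ Real.exp 2 := by
        have := Real.quadratic_le_exp_of_nonneg (by norm_num : (0:ℝ) ≤ 2)
        norm_num at this
        linarith
      calc (5:ℝ) ^ (2 * D) ≤ (Real.exp 2) ^ (2 * D) := by gcongr
        _ = Real.exp (4 * D) := by
            rw [← Real.exp_nat_mul]
            congr 1
            push_cast
            ring
    have e6 : Real.exp (κ + C * κ * ν) * (Real.exp (C * κ * ν) ^ 2 * 5 ^ (2 * D))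
        ≤ Real.exp (κ + C * κ * ν) * (Real.exp (C * κ * ν) ^ 2 * Real.exp (4 * D)) := by
      gcongr
    refine e6.trans ?_
    rw [← Real.exp_nat_mul, ← Real.exp_add, ← Real.exp_add, Real.exp_le_exp]
    push_cast
    have hν3 : (ν : ℝ) ≤ 101 * C * t := by gcongr
    have hν4 : (1:ℝ) ≤ (ν : ℝ) := by exact_mod_cast hν0
    have f1 : κ ≤ C * κ * ν := by
      calc κ = 1 * κ * 1 := by ring
        _ ≤ C * κ * ν := by gcongr
    have f2 : (D : ℝ) ≤ 2 * (C * κ * ν) := by
      calc (D : ℝ) ≤ 2 * (C * κ) := hD2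
        _ = 2 * (C * κ * 1) := by ring
        _ ≤ 2 * (C * κ * ν) := by gcongr
    calc κ + C * κ * ν + (2 * (C * κ * ν) + 4 * D)
        ≤ 12 * (C * κ * ν) := by linarith
      _ ≤ 12 * (C * κ * (101 * C * t)) := by gcongr
      _ = 12 * C * (101 * C) * κ * t := by ring

end Pool.Agent.W_626a77_h71
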