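import Pool.Agent.W_626a77_h71.Lat2

/-!
Bohr sets in `ZMod M` and lattices (MP_626a77_co, helper71).
-/

set_option autoImplicit false

open scoped Pointwise
open Module

namespace Pool.Agent.W_626a77_h71

/-- Bohr set -/
noncomputable def Boh {G : Type*} [AddCommGroup G] [Fintype G] (Λ : Finset (AddChar G ℂ)) (η : ℝ) :
    Finset G := by
  classical exact Finset.univ.filter (fun x => ∀ χ ∈ Λ, ‖1 - χ x‖ ≤ η)

theorem mem_Boh {G : Type*} [AddCommGroup G] [Fintype G] (Λ : Finset (AddChar G ℂ)) (η : ℝ)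
    (x : G) : x ∈ Boh Λ η ↔ ∀ χ ∈ Λ, ‖1 - χ x‖ ≤ η := by
  simp [Boh]

theorem Boh_mono {G : Type*} [AddCommGroup G] [Fintype G] (Λ : Finset (AddChar G ℂ)) {η ζ : ℝ}
    (h : η ≤ ζ) : Boh Λ η ⊆ Boh Λ ζ := by
  intro x hx
  rw [mem_Boh] at hx ⊢
  exact fun χ hχ => (hx χ hχ).trans h

theorem Boh_sub {G : Type*} [AddCommGroup G] [Fintype G] (Λ : Finset (AddChar G ℂ)) (η ζ : ℝ)
    (x y : G) (hx : x ∈ Boh Λ η) (hy : y ∈ Boh Λ ζ) : x - y ∈ Boh Λ (η + ζ) := by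
  rw [mem_Boh] at hx hy ⊢
  intro χ hχ
  have h1 := hx χ hχ
  have h2 := hy χ hχ
  have hny : ‖χ y‖ = 1 := AddChar.norm_apply χ y
  have h3 : ‖1 - χ (x - y)‖ = ‖χ y - χ x‖ := by
    have : χ y - χ x = χ y * (1 - χ (x - y)) := by
      have h4 : χ x = χ (x - y) * χ y := by
        rw [← AddChar.map_add_eq_mul]
        simp
      rw [h4]; ring
    rw [this, norm_mul, hny, one_mul]
  rw [h3]
  have : χ y - χ x = (1 - χ x) - (1 - χ y) := by ring
  rw [this]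
  exact (norm_sub_le _ _).trans (add_le_add h1 h2)

/-- `e(t) = exp (2 π i t)` -/
noncomputable def e (t : ℝ) : ℂ := Complex.exp ((2 * Real.pi * t : ℝ) * Complex.I)

theorem e_sub_int (t : ℝ) (n : ℤ) : e (t - n) = e t := by
  unfold e
  have : ((2 * Real.pi * (t - n) : ℝ) : ℂ) * Complex.I
      = ((2 * Real.pi * t : ℝ) : ℂ) * Complex.I - n * (2 * Real.pi * Complex.I) := by
    push_cast; ring
  rw [this, Complex.exp_periodic.sub_int_mul_eq n]

theorem norm_one_sub_e (t : ℝ) : ‖1 - e t‖ = 2 * |Real.sin (Real.pi * t)| := by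
  unfold e
  rw [norm_sub_rev, mul_comm]
  have := Complex.norm_exp_I_mul_ofReal_sub_one (2 * Real.pi * t)
  rw [this]
  rw [show 2 * Real.pi * t / 2 = Real.pi * t by ring]
  rw [Real.norm_eq_abs, abs_mul]
  norm_num

theorem norm_one_sub_e_le (t : ℝ) (ht : |t| ≤ 1 / 8) : ‖1 - e t‖ ≤ 1 := by
  rw [norm_one_sub_e]
  have h1 : |Real.sin (Real.pi * t)| ≤ |Real.pi * t| := Real.abs_sin_le_abs
  have h2 : |Real.pi * t| ≤ Real.pi * (1 / 8) := by
    rw [abs_mul, abs_of_pos Real.pi_pos]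
    exact mul_le_mul_of_nonneg_left ht Real.pi_pos.le
  have h3 := Real.pi_lt_four
  linarith

theorem le_norm_one_sub_e (t : ℝ) (ht : |t| ≤ 1 / 2) : 4 * |t| ≤ ‖1 - e t‖ := by
  rw [norm_one_sub_e]
  have key : ∀ u : ℝ, 0 ≤ u → u ≤ 1 / 2 → 2 * u ≤ Real.sin (Real.pi * u) := by
    intro u h0 h1
    have h2 := Real.mul_le_sin (x := Real.pi * u) (by positivity)
      (by nlinarith [Real.pi_pos])
    have h3 : 2 / Real.pi * (Real.pi * u) = 2 * u := by
      field_simp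
    linarith
  have h4 := key |t| (abs_nonneg t) ht
  have h5 : |Real.sin (Real.pi * t)| = |Real.sin (Real.pi * |t|)| := by
    rcases abs_cases t with ⟨h, _⟩ | ⟨h, _⟩
    · rw [h]
    · rw [h, mul_neg, Real.sin_neg, abs_neg]
  rw [h5]
  have := le_abs_self (Real.sin (Real.pi * |t|))
  linarith

/-- every additive character of `ZMod M` is given by a real frequency -/
theorem exists_theta (M : ℕ) [NeZero M] (χ : AddChar (ZMod M) ℂ) :
    ∃ θ : ℝ, ∀ x : ℤ, χ (x : ZMod M) = e (θ * x) := by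
  have h1 : ‖χ 1‖ = 1 := AddChar.norm_apply χ 1
  obtain ⟨φ, hφ⟩ := (Complex.norm_eq_one_iff (χ 1)).1 h1
  refine ⟨φ / (2 * Real.pi), fun x => ?_⟩
  have h2 : χ (x : ZMod M) = (χ 1) ^ x := by
    have : (x : ZMod M) = x • (1 : ZMod M) := by simp
    rw [this, AddChar.map_zsmul_eq_zpow]
  rw [h2, ← hφ, e, ← Complex.exp_int_mul]
  congr 1
  have hpi : (Real.pi : ℂ) ≠ 0 := by exact_mod_cast Real.pi_ne_zero
  push_cast
  field_simp

section Lat

variable {ι : Type*} [Fintype ι]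

/-- the lattice map -/
noncomputable def latHom (θ : ι → ℝ) (R : ℝ) : ℤ × (ι → ℤ) →+ ℝ × (ι → ℝ) where
  toFun x := ((x.1 : ℝ) / R, fun i => θ i * x.1 - x.2 i)
  map_zero' := by
    ext <;> simp
  map_add' x y := by
    ext i
    · simp; ring
    · simp; ring

/-- the lattice -/
noncomputable def lat (θ : ι → ℝ) (R : ℝ) : AddSubgroup (ℝ × (ι → ℝ)) := (latHom θ R).range

theorem norm_latHom_le_iff (θ : ι → ℝ) (R : ℝ) (hR : 0 < R) (x : ℤ × (ι → ℤ)) (s : ℝ)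
    (hs : 0 ≤ s) :
    ‖latHom θ R x‖ ≤ s ↔ |(x.1 : ℝ)| ≤ s * R ∧ ∀ i, |θ i * x.1 - x.2 i| ≤ s := by
  rw [Prod.norm_def, max_le_iff]
  apply and_congr
  · change ‖(x.1 : ℝ) / R‖ ≤ s ↔ _
    rw [norm_div, Real.norm_eq_abs, Real.norm_eq_abs, abs_of_pos hR, div_le_iff₀ hR]
  · change ‖fun i => θ i * x.1 - x.2 i‖ ≤ s ↔ _
    rw [pi_norm_le_iff_of_nonneg hs]
    rfl

theorem lat_finite (θ : ι → ℝ) (R : ℝ) (hR : 0 < R) (s : ℝ) :
    {v : ℝ × (ι → ℝ) | v ∈ lat θ R ∧ ‖v‖ ≤ s}.Finite := by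
  classical
  rcases lt_or_ge s 0 with hs | hs
  · apply Set.Finite.subset Set.finite_empty
    intro v hv
    have := norm_nonneg v
    exact absurd (this.trans hv.2) (not_le.2 hs)
  obtain ⟨N, hN⟩ := exists_nat_gt (s * R + ∑ i, |θ i| * (s * R) + s)
  have hsum : 0 ≤ ∑ i, |θ i| * (s * R) := Finset.sum_nonneg (fun i _ => by positivity)
  have hfin : (Set.Icc (-(N : ℤ)) N ×ˢ
      (Set.univ.pi (fun _ : ι => Set.Icc (-(N : ℤ)) N))).Finite :=
    (Set.finite_Icc _ _).prod (Set.Finite.pi (fun _ => Set.finite_Icc _ _))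
  apply (hfin.image (latHom θ R)).subset
  rintro v ⟨⟨x, rfl⟩, hv⟩
  rw [norm_latHom_le_iff θ R hR x s hs] at hv
  refine ⟨x, ?_, rfl⟩
  refine ⟨?_, ?_⟩
  · have h1 : |(x.1 : ℝ)| < N := by
      have : s * R ≤ s * R + ∑ i, |θ i| * (s * R) + s := by linarith
      exact (hv.1.trans this).trans_lt hN
    have h2 : |x.1| < (N : ℤ) := by exact_mod_cast h1
    rw [abs_lt] at h2
    exact ⟨h2.1.le, h2.2.le⟩
  · intro i _
    have h0 : |θ i| * (s * R) ≤ ∑ i, |θ i| * (s * R) :=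
      Finset.single_le_sum (f := fun i => |θ i| * (s * R)) (fun i _ => by positivity)
        (Finset.mem_univ i)
    have h1 : |(x.2 i : ℝ)| < N := by
      have h3 : |(x.2 i : ℝ)| ≤ |θ i * x.1| + |θ i * x.1 - x.2 i| := by
        have := abs_sub_abs_le_abs_sub (x.2 i : ℝ) (θ i * x.1)
        rw [abs_sub_comm (x.2 i : ℝ)] at this
        linarith
      have h4 : |θ i * x.1| ≤ |θ i| * (s * R) := by
        rw [abs_mul]
        exact mul_le_mul_of_nonneg_left hv.1 (abs_nonneg _)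
      have h5 := hv.2 i
      have h6 : 0 ≤ s * R := by positivity
      linarith
    have h2 : |x.2 i| < (N : ℤ) := by exact_mod_cast h1
    rw [abs_lt] at h2
    exact ⟨h2.1.le, h2.2.le⟩

/-- the projection to the first coordinate -/
noncomputable def piLin (ι : Type*) (R : ℝ) : (ℝ × (ι → ℝ)) →ₗ[ℝ] ℝ :=
  R • LinearMap.fst ℝ ℝ (ι → ℝ)

omit [Fintype ι] in
theorem piLin_latHom (θ : ι → ℝ) (R : ℝ) (hR : 0 < R) (x : ℤ × (ι → ℤ)) :
    piLin ι R (latHom θ R x) = x.1 := by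
  simp [piLin, latHom]
  field_simp

omit [Fintype ι] in
theorem piLin_int (θ : ι → ℝ) (R : ℝ) (hR : 0 < R) (v : ℝ × (ι → ℝ)) (hv : v ∈ lat θ R) :
    ∃ n : ℤ, piLin ι R v = n := by
  obtain ⟨x, rfl⟩ := hv
  exact ⟨x.1, piLin_latHom θ R hR x⟩

end Lat

end Pool.Agent.W_626a77_h71
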