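import Pool.Agent.W_626a77_h71.BohrLat

/-!
Comparison of Bohr sets in `ZMod M` with lattice points (MP_626a77_co, helper71).
-/

set_option autoImplicit false

open scoped Pointwise
open Module

namespace Pool.Agent.W_626a77_h71

theorem int_eq_of_cast_eq (M : ℕ) (x y : ℤ) (h : (x : ZMod M) = (y : ZMod M))
    (hxy : |(x : ℝ) - y| < M) : x = y := by
  rw [ZMod.intCast_eq_intCast_iff_dvd_sub] at h
  obtain ⟨k, hk⟩ := h
  have h1 : |(y - x : ℤ)| < M := by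
    have : |((y - x : ℤ) : ℝ)| < M := by
      push_cast
      rw [abs_sub_comm]
      exact hxy
    exact_mod_cast this
  have h2 : y - x = 0 := by
    apply Int.eq_zero_of_abs_lt_dvd (m := (M : ℤ)) ⟨k, hk⟩ h1
  omega

section

variable {M : ℕ} [NeZero M] (Λ : Finset (AddChar (ZMod M) ℂ)) (θ : Λ → ℝ)
  (hθ : ∀ χ : Λ, ∀ x : ℤ, (χ : AddChar (ZMod M) ℂ) (x : ZMod M) = e (θ χ * x))

include hθ in
theorem S_le_Boh (R : ℝ) (hR : 0 < R) (s : ℝ) (hs0 : 0 ≤ s) (hs : s ≤ 1 / 8)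
    (hsR : 2 * (s * R) < M) :
    (S (lat θ R) (lat_finite θ R hR) s).card ≤ (Boh Λ 1).card := by
  classical
  apply Finset.card_le_card_of_injOn (fun v => ((round (piLin Λ R v) : ℤ) : ZMod M))
  · intro v hv
    rw [Finset.mem_coe, mem_S] at hv
    obtain ⟨⟨x, rfl⟩, hx⟩ := hv
    rw [norm_latHom_le_iff θ R hR x s hs0] at hx
    rw [Finset.mem_coe, mem_Boh]
    intro χ hχ
    simp only
    rw [piLin_latHom θ R hR x, round_intCast, hθ ⟨χ, hχ⟩ x.1, ← e_sub_int _ (x.2 ⟨χ, hχ⟩)]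
    exact norm_one_sub_e_le _ ((hx.2 ⟨χ, hχ⟩).trans hs)
  · intro v hv w hw hvw
    rw [Finset.mem_coe, mem_S] at hv hw
    obtain ⟨⟨x, rfl⟩, hx⟩ := hv
    obtain ⟨⟨y, rfl⟩, hy⟩ := hw
    rw [norm_latHom_le_iff θ R hR _ s hs0] at hx hy
    simp only at hvw
    rw [piLin_latHom θ R hR x, piLin_latHom θ R hR y, round_intCast, round_intCast] at hvw
    have h1 : x.1 = y.1 := by
      apply int_eq_of_cast_eq M _ _ hvw
      have := abs_sub (x.1 : ℝ) y.1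
      linarith [hx.1, hy.1]
    have h2 : x.2 = y.2 := by
      funext χ
      have e1 := hx.2 χ
      have e2 := hy.2 χ
      rw [h1] at e1
      have e3 : |((x.2 χ : ℝ)) - y.2 χ| < 1 := by
        have : ((x.2 χ : ℝ)) - y.2 χ
            = (θ χ * y.1 - y.2 χ) - (θ χ * y.1 - x.2 χ) := by ring
        rw [this]
        have := abs_sub (θ χ * y.1 - y.2 χ) (θ χ * y.1 - x.2 χ)
        linarith
      have e4 : |x.2 χ - y.2 χ| < 1 := by exact_mod_cast e3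
      rw [Int.abs_lt_one_iff] at e4
      omega
    rw [Prod.ext h1 h2]

include hθ in
theorem exists_mem_S (R : ℝ) (hR : 0 < R) (s η : ℝ) (hs0 : 0 ≤ s) (hη : η / 4 ≤ s) (x : ℤ)
    (hx : (x : ZMod M) ∈ Boh Λ η) (hxR : |(x : ℝ)| ≤ s * R) :
    ∃ v ∈ S (lat θ R) (lat_finite θ R hR) s, piLin Λ R v = x := by
  refine ⟨latHom θ R (x, fun χ => round (θ χ * x)), ?_, ?_⟩
  · rw [mem_S]
    refine ⟨⟨_, rfl⟩, ?_⟩
    rw [norm_latHom_le_iff θ R hR _ s hs0]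
    refine ⟨hxR, ?_⟩
    intro χ
    rw [mem_Boh] at hx
    have h1 := hx χ.1 χ.2
    rw [hθ χ x, ← e_sub_int _ (round (θ χ * x))] at h1
    have h2 := le_norm_one_sub_e (θ χ * x - round (θ χ * x)) (abs_sub_round _)
    have h3 : |θ χ * x - round (θ χ * x)| ≤ s := by linarith
    exact h3
  · rw [piLin_latHom θ R hR]

include hθ in
theorem Boh_le_S (R : ℝ) (hR : 0 < R) (s η : ℝ) (hs0 : 0 ≤ s) (hη : η / 4 ≤ s)
    (hB : ∀ x ∈ Boh Λ η, ∃ n : ℤ, x = (n : ZMod M) ∧ |(n : ℝ)| ≤ s * R) :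
    (Boh Λ η).card ≤ (S (lat θ R) (lat_finite θ R hR) s).card := by
  classical
  have key : ∀ x ∈ Boh Λ η, ∃ v ∈ S (lat θ R) (lat_finite θ R hR) s,
      ((round (piLin Λ R v) : ℤ) : ZMod M) = x := by
    intro x hx
    obtain ⟨n, rfl, hn⟩ := hB x hx
    obtain ⟨v, hv, h⟩ := exists_mem_S Λ θ hθ R hR s η hs0 hη n hx hn
    exact ⟨v, hv, by rw [h, round_intCast]⟩
  have hsub : Boh Λ η ⊆ (S (lat θ R) (lat_finite θ R hR) s).image
      (fun v => ((round (piLin Λ R v) : ℤ) : ZMod M)) := by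
    intro x hx
    obtain ⟨v, hv, h⟩ := key x hx
    exact Finset.mem_image.2 ⟨v, hv, h⟩
  exact (Finset.card_le_card hsub).trans Finset.card_image_le

include hθ in
/-- dimension bound -/
theorem dim_bound (R : ℝ) (hR : 0 < R) (c : ℝ) (D ν : ℕ) (hν : 1 ≤ ν)
    (hsR : 2 * (1 / 8 * R) < M) (hB : ∀ x ∈ Boh Λ ((4 ^ ν)⁻¹), ∃ n : ℤ, x = (n : ZMod M) ∧
      |(n : ℝ)| ≤ (4 ^ ν)⁻¹ * R)
    (hc : ((Boh Λ 1).card : ℝ) ≤ Real.exp (c * ν) * (Boh Λ ((4 ^ ν)⁻¹)).card)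
    (hD : c < Real.log 2 * (D + 1)) (hD2 : 24 * (D + 1) ≤ 2 ^ ν) :
    finrank ℝ (Submodule.span ℝ (S (lat θ R) (lat_finite θ R hR) ((4 ^ ν)⁻¹) :
      Set (ℝ × (Λ → ℝ)))) ≤ D := by
  by_contra hcon
  push Not at hcon
  have h4 : (0:ℝ) < (4 ^ ν)⁻¹ := by positivity
  have h1 := dim_lemma (lat θ R) (lat_finite θ R hR) ((4 ^ ν)⁻¹) h4.le (D + 1) (2 ^ ν)
    (by omega) (by positivity) hcon
  have h2 : (3 * ((2 ^ ν : ℕ) : ℝ) * ((D + 1 : ℕ) : ℝ) * (4 ^ ν)⁻¹) ≤ 1 / 8 := by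
    have e1 : (24 * ((D : ℝ) + 1)) ≤ 2 ^ ν := by exact_mod_cast hD2
    have e2 : (4 : ℝ) ^ ν = 2 ^ ν * 2 ^ ν := by
      rw [← mul_pow]; norm_num
    rw [e2]
    have e3 : (0:ℝ) < 2 ^ ν := by positivity
    push_cast
    rw [mul_inv]
    have e4 : 3 * (2:ℝ) ^ ν * ((D:ℝ) + 1) * ((2 ^ ν)⁻¹ * (2 ^ ν)⁻¹)
        = 3 * ((D:ℝ) + 1) * (2 ^ ν)⁻¹ := by
      field_simp
    rw [e4, ← div_eq_mul_inv, div_le_iff₀ e3]
    linarith
  have h3 : (S (lat θ R) (lat_finite θ R hR)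
      (3 * ((2 ^ ν : ℕ) : ℝ) * ((D + 1 : ℕ) : ℝ) * (4 ^ ν)⁻¹)).card ≤ (Boh Λ 1).card := by
    refine le_trans (Finset.card_le_card (S_mono _ _ h2)) ?_
    exact S_le_Boh Λ θ hθ R hR (1 / 8) (by norm_num) le_rfl hsR
  have h5 := Boh_le_S Λ θ hθ R hR ((4 ^ ν)⁻¹) ((4 ^ ν)⁻¹) h4.le (by linarith) hB
  have h6 : (((2 ^ ν) ^ (D + 1) : ℕ) : ℝ) * (S (lat θ R) (lat_finite θ R hR) ((4 ^ ν)⁻¹)).card
      ≤ Real.exp (c * ν) * (S (lat θ R) (lat_finite θ R hR) ((4 ^ ν)⁻¹)).card := by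
    calc (((2 ^ ν) ^ (D + 1) : ℕ) : ℝ) * (S (lat θ R) (lat_finite θ R hR) ((4 ^ ν)⁻¹)).card
        ≤ ((Boh Λ 1).card : ℝ) := by exact_mod_cast h1.trans h3
      _ ≤ Real.exp (c * ν) * (Boh Λ ((4 ^ ν)⁻¹)).card := hc
      _ ≤ Real.exp (c * ν) * (S (lat θ R) (lat_finite θ R hR) ((4 ^ ν)⁻¹)).card := by
          gcongr
  have h7 : (0:ℝ) < (S (lat θ R) (lat_finite θ R hR) ((4 ^ ν)⁻¹)).card := by
    exact_mod_cast S_card_pos _ _ h4.le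
  have h8 := le_of_mul_le_mul_right h6 h7
  have h9 : Real.exp (c * ν) < Real.exp (Real.log 2 * (D + 1) * ν) := by
    apply Real.exp_lt_exp.2
    have : (0:ℝ) < ν := by exact_mod_cast hν
    exact mul_lt_mul_of_pos_right hD this
  have h10 : Real.exp (Real.log 2 * (D + 1) * ν) = (((2 ^ ν) ^ (D + 1) : ℕ) : ℝ) := by
    rw [mul_assoc, Real.exp_mul, Real.exp_log (by norm_num)]
    push_cast
    rw [← pow_mul, ← Real.rpow_natCast]
    congr 1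
    push_cast
    ring
  rw [h10] at h9
  exact absurd h8 (not_le.2 h9)

end

end Pool.Agent.W_626a77_h71
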