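import Pool.Agent.W_626a77_h71.BohrLat2

/-!
From the core theorem (output of the entropy and Fourier parts, for `ZMod M`) to the
quasi-optimal Freiman-Ruzsa theorem in `ℤ` (MP_626a77_co, helper71).
-/

set_option autoImplicit false

open scoped Pointwise
open Module

namespace Pool.Agent.W_626a77_h71

/-- The exact output of the entropy and Fourier parts. -/
def Core (C : ℝ) : Prop :=
  ∀ (M : ℕ) [NeZero M] (A : Finset (ZMod M)) (κ : ℝ) (ν : ℕ), A.Nonempty → 1 ≤ κ →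
    ((A + A).card : ℝ) ≤ Real.exp κ * A.card → C * (1 + Real.log κ) ≤ ν →
    ∃ (Λ : Finset (AddChar (ZMod M) ℂ)) (l : ℕ),
      l ≤ 2 ^ (10 * ν) ∧
      ((Boh Λ 1).card : ℝ) ≤ Real.exp (C * κ * ν) * (Boh Λ ((4 ^ ν)⁻¹)).card ∧
      (A.card : ℝ) ≤ Real.exp (C * κ * ν) * (Boh Λ ((4 ^ ν)⁻¹)).card ∧
      ((Boh Λ 1).card : ℝ) ≤ Real.exp (C * κ * ν) * A.card ∧
      (∃ A' ⊆ A, (A.card : ℝ) ≤ Real.exp (C * κ * ν) * A'.card ∧
        ∃ z, ∀ x ∈ A', x - z ∈ Boh Λ ((4 ^ ν)⁻¹)) ∧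
      (∀ x ∈ Boh Λ 1, ∃ f g : Fin l → ZMod M, (∀ i, f i ∈ A) ∧ (∀ i, g i ∈ A) ∧
        x = ∑ i, f i - ∑ i, g i)

/-- conclusion for one `A`: dimension at most `D`, at most `N` translates -/
def Concl (A : Finset ℤ) (D : ℕ) (N : ℝ) : Prop :=
  ∃ (d : ℕ) (B : Set (Fin d → ℝ)) (v : Fin d → ℤ) (T : Finset ℤ), d ≤ D ∧ Convex ℝ B ∧
    IsCompact B ∧ (interior B).Nonempty ∧ (∀ x ∈ B, -x ∈ B) ∧
    ({x : Fin d → ℤ | (fun i => (x i : ℝ)) ∈ B}.ncard ≤ A.card) ∧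
    ((T.card : ℝ) ≤ N) ∧
    ∀ a ∈ A, ∃ t ∈ T, ∃ x : Fin d → ℤ,
      (fun i => (x i : ℝ)) ∈ B ∧ a = t + ∑ i, v i * x i

theorem core_concl (C : ℝ) (hC : 1 ≤ C) (h : Core C) (A : Finset ℤ) (κ : ℝ) (ν D : ℕ)
    (hA : A.Nonempty) (hκ : 1 ≤ κ) (hAA : ((A + A).card : ℝ) ≤ Real.exp κ * A.card)
    (hν1 : 1 ≤ ν) (hν : C * (1 + Real.log κ) ≤ ν) (hD : C * κ < Real.log 2 * (D + 1))
    (hD2 : 24 * (D + 1) ≤ 2 ^ ν) :
    Concl A D (Real.exp (κ + C * κ * ν) * (Real.exp (C * κ * ν) ^ 2 * 5 ^ (2 * D))) := by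
  classical
  obtain ⟨a, ha⟩ : ∃ a : ℕ, ∀ x ∈ A, |x| ≤ (a : ℤ) := by
    refine ⟨∑ x ∈ A, x.natAbs, ?_⟩
    intro x hx
    rw [Int.abs_eq_natAbs]
    exact_mod_cast Finset.single_le_sum (f := fun x : ℤ => x.natAbs) (fun _ _ => Nat.zero_le _) hx
  set lm : ℕ := 2 ^ (10 * ν) with hlm
  have hlm1 : 1 ≤ lm := Nat.one_le_two_pow
  set M : ℕ := 8 * (lm * (a + 1) * 4 ^ ν) + 1 with hM
  have : NeZero M := ⟨by omega⟩
  set R : ℝ := 2 * lm * (a + 1) * 4 ^ ν with hRdef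
  have hR : 0 < R := by positivity
  have hMR : (M : ℝ) = 4 * R + 1 := by
    rw [hM, hRdef]; push_cast; ring
  have h4pos : (0:ℝ) < 4 ^ ν := by positivity
  have h4ge : (4:ℝ) ≤ 4 ^ ν := by
    calc (4:ℝ) = 4 ^ 1 := by norm_num
      _ ≤ 4 ^ ν := pow_le_pow_right₀ (by norm_num) hν1
  have hδR : ((4:ℝ) ^ ν)⁻¹ * R = 2 * lm * (a + 1) := by
    rw [hRdef]; field_simp
  have hRa : 8 * ((a : ℝ) + 1) ≤ R := by
    have h1 : (1:ℝ) ≤ lm := by exact_mod_cast hlm1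
    calc 8 * ((a : ℝ) + 1) = 2 * 1 * (a + 1) * 4 := by ring
      _ ≤ 2 * lm * (a + 1) * 4 ^ ν := by gcongr
  let φ : ℤ → ZMod M := fun x => (x : ZMod M)
  have hinj : Set.InjOn φ A := by
    intro x hx y hy hxy
    apply int_eq_of_cast_eq M x y hxy
    have e1 : |(x : ℝ)| ≤ a := by exact_mod_cast ha x hx
    have e2 : |(y : ℝ)| ≤ a := by exact_mod_cast ha y hy
    have := abs_sub (x : ℝ) y
    rw [hMR]
    linarith
  have hcard : (A.image φ).card = A.card := Finset.card_image_of_injOn hinj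
  have hAA' : (((A.image φ) + (A.image φ)).card : ℝ) ≤ Real.exp κ * (A.image φ).card := by
    rw [hcard]
    refine le_trans ?_ hAA
    have : (A.image φ) + (A.image φ) = (A + A).image φ := by
      ext z
      simp only [Finset.mem_add, Finset.mem_image, φ]
      constructor
      · rintro ⟨_, ⟨x, hx, rfl⟩, _, ⟨y, hy, rfl⟩, rfl⟩
        exact ⟨x + y, ⟨x, hx, y, hy, rfl⟩, by push_cast; rfl⟩
      · rintro ⟨_, ⟨x, hx, y, hy, rfl⟩, rfl⟩
        exact ⟨_, ⟨x, hx, rfl⟩, _, ⟨y, hy, rfl⟩, by push_cast; rfl⟩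
    rw [this]
    exact_mod_cast Finset.card_image_le
  obtain ⟨Λ, l, hl, c1, c2, c3, ⟨A', hA', c4, z, hz⟩, c5⟩ :=
    h M (A.image φ) κ ν (hA.image _) hκ hAA' hν
  rw [hcard] at c2 c3 c4
  choose θ hθ using fun χ : Λ => exists_theta M (χ : AddChar (ZMod M) ℂ)
  -- representatives
  have hrep : ∀ x ∈ Boh Λ 1, ∃ n : ℤ, x = (n : ZMod M) ∧ |(n : ℝ)| ≤ (4 ^ ν)⁻¹ * R := by
    intro x hx
    obtain ⟨f, g, hf, hg, hxfg⟩ := c5 x hx
    simp only [Finset.mem_image] at hf hg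
    choose f' hf' using hf
    choose g' hg' using hg
    refine ⟨∑ i, f' i - ∑ i, g' i, ?_, ?_⟩
    · rw [hxfg]
      push_cast
      congr 1
      · exact Finset.sum_congr rfl (fun i _ => (hf' i).2.symm)
      · exact Finset.sum_congr rfl (fun i _ => (hg' i).2.symm)
    · rw [hδR]
      push_cast
      have e1 : |∑ i, (f' i : ℝ)| ≤ l * a := by
        calc |∑ i, (f' i : ℝ)| ≤ ∑ i, |(f' i : ℝ)| := Finset.abs_sum_le_sum_abs _ _
          _ ≤ ∑ _i : Fin l, (a : ℝ) := Finset.sum_le_sum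
              (fun i _ => by exact_mod_cast ha _ (hf' i).1)
          _ = l * a := by simp
      have e2 : |∑ i, (g' i : ℝ)| ≤ l * a := by
        calc |∑ i, (g' i : ℝ)| ≤ ∑ i, |(g' i : ℝ)| := Finset.abs_sum_le_sum_abs _ _
          _ ≤ ∑ _i : Fin l, (a : ℝ) := Finset.sum_le_sum
              (fun i _ => by exact_mod_cast ha _ (hg' i).1)
          _ = l * a := by simp
      have e3 := abs_sub (∑ i, (f' i : ℝ)) (∑ i, (g' i : ℝ))
      have e4 : (l : ℝ) ≤ lm := by exact_mod_cast hl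
      have e5 : (l : ℝ) * a ≤ lm * (a + 1) :=
        mul_le_mul e4 (by linarith) (by positivity) (by positivity)
      linarith
  have hinv1 : ((4:ℝ) ^ ν)⁻¹ ≤ 1 := by
    rw [inv_le_one₀ h4pos]; linarith
  have hinv4 : ((4:ℝ) ^ ν)⁻¹ ≤ 1 / 4 := by
    rw [inv_le_comm₀ h4pos (by norm_num)]; norm_num; exact h4ge
  have hsR : 2 * (1 / 8 * R) < M := by rw [hMR]; linarith
  have hrepδ : ∀ x ∈ Boh Λ ((4 ^ ν)⁻¹), ∃ n : ℤ, x = (n : ZMod M) ∧
      |(n : ℝ)| ≤ (4 ^ ν)⁻¹ * R := fun x hx => hrep x (Boh_mono Λ hinv1 hx)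
  have hposinv : (0:ℝ) < ((4:ℝ) ^ ν)⁻¹ := by positivity
  -- the dimension
  have hdim := dim_bound Λ θ hθ R hR (C * κ) D ν hν1 hsR hrepδ c1 hD hD2
  have hBS := Boh_le_S Λ θ hθ R hR ((4 ^ ν)⁻¹) ((4 ^ ν)⁻¹) hposinv.le (by linarith) hrepδ
  -- `ν ≥ 2`, so that `2 δ ≤ 1/8`
  have h24 : 24 ≤ 2 ^ ν := le_trans (by omega) hD2
  have h2δ : 2 * ((4:ℝ) ^ ν)⁻¹ ≤ 1 / 8 := by
    have e1 : (24:ℝ) ≤ 2 ^ ν := by exact_mod_cast h24
    have e2 : (4 : ℝ) ^ ν = 2 ^ ν * 2 ^ ν := by rw [← mul_pow]; norm_num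
    have e3 : (16:ℝ) ≤ 4 ^ ν := by
      rw [e2]
      calc (16:ℝ) ≤ 24 * 24 := by norm_num
        _ ≤ 2 ^ ν * 2 ^ ν := by gcongr
    rw [← div_eq_mul_inv, div_le_iff₀ h4pos]
    linarith
  have hSB := S_le_Boh Λ θ hθ R hR (2 * (4 ^ ν)⁻¹) (by positivity) h2δ
    (lt_of_le_of_lt (by gcongr) hsR)
  -- Ruzsa covering
  let A'' : Finset ℤ := A.filter (fun x => φ x ∈ A')
  have hA''card : A''.card = A'.card := by
    have : A''.image φ = A' := by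
      ext y
      simp only [Finset.mem_image, A'', Finset.mem_filter]
      constructor
      · rintro ⟨x, ⟨_, hx2⟩, rfl⟩
        exact hx2
      · intro hy
        obtain ⟨x, hx, rfl⟩ := Finset.mem_image.1 (hA' hy)
        exact ⟨x, ⟨hx, hy⟩, rfl⟩
    rw [← this, Finset.card_image_of_injOn]
    exact hinj.mono (by intro x hx; exact (Finset.mem_filter.1 hx).1)
  have hA''ne : A''.Nonempty := by
    rw [← Finset.card_pos, hA''card]
    by_contra h0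
    have h0' : A'.card = 0 := by omega
    rw [h0'] at c4
    have : (0:ℝ) < A.card := by exact_mod_cast Finset.card_pos.2 hA
    norm_num at c4
    exact hA.ne_empty c4
  have hruz : ((A + A'').card : ℝ) ≤ Real.exp (κ + C * κ * ν) * A''.card := by
    rw [hA''card]
    calc ((A + A'').card : ℝ) ≤ ((A + A).card : ℝ) := by
          exact_mod_cast Finset.card_le_card (Finset.add_subset_add_left (Finset.filter_subset _ _))
      _ ≤ Real.exp κ * A.card := hAA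
      _ ≤ Real.exp κ * (Real.exp (C * κ * ν) * A'.card) := by gcongr
      _ = Real.exp (κ + C * κ * ν) * A'.card := by rw [Real.exp_add]; ring
  obtain ⟨F, hFA, hFc, hcov⟩ := Finset.ruzsa_covering_add hA''ne hruz
  have hT0 : ∀ x ∈ A, ∃ t ∈ F, ∃ v ∈ S (lat θ R) (lat_finite θ R hR) ((4 ^ ν)⁻¹),
      (x : ℝ) = t + piLin Λ R v := by
    intro x hx
    have hx' := hcov hx
    rw [Finset.mem_add] at hx'
    obtain ⟨t, ht, y, hy, hty⟩ := hx'
    rw [Finset.mem_sub] at hy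
    obtain ⟨b, hb, b', hb', hbb⟩ := hy
    simp only [A'', Finset.mem_filter] at hb hb'
    have hyB : (y : ZMod M) ∈ Boh Λ ((4 ^ ν)⁻¹ + (4 ^ ν)⁻¹) := by
      have : (y : ZMod M) = (φ b - z) - (φ b' - z) := by
        rw [← hbb]; simp [φ]
      rw [this]
      exact Boh_sub Λ _ _ _ _ (hz _ hb.2) (hz _ hb'.2)
    have hyR : |(y : ℝ)| ≤ (4 ^ ν)⁻¹ * R := by
      rw [hδR, ← hbb]
      push_cast
      have e1 : |(b : ℝ)| ≤ a := by exact_mod_cast ha b hb.1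
      have e2 : |(b' : ℝ)| ≤ a := by exact_mod_cast ha b' hb'.1
      have e3 := abs_sub (b : ℝ) b'
      have e4 : (1:ℝ) ≤ lm := by exact_mod_cast hlm1
      calc |(b : ℝ) - b'| ≤ 2 * 1 * (a + 1) := by linarith
        _ ≤ 2 * lm * (a + 1) := by gcongr
    obtain ⟨v, hv, hvy⟩ := exists_mem_S Λ θ hθ R hR ((4 ^ ν)⁻¹) ((4 ^ ν)⁻¹ + (4 ^ ν)⁻¹)
      hposinv.le (by linarith) y hyB hyR
    refine ⟨t, ht, v, hv, ?_⟩
    rw [hvy, ← hty]
    push_cast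
    rfl
  have hexp1 : 1 ≤ Real.exp (C * κ * ν) := Real.one_le_exp (by positivity)
  obtain ⟨d, B, v, T, r1, r2, r3, r4, r5, r6, r7, r8⟩ :=
    assembly (lat θ R) (lat_finite θ R hR) (piLin Λ R) (piLin_int θ R hR) ((4 ^ ν)⁻¹) hposinv D hdim
      A hA (Real.exp (C * κ * ν)) hexp1
      (le_trans (by exact_mod_cast hSB) c3)
      (le_trans c2 (by gcongr)) F hT0
  refine ⟨d, B, v, T, r1, r2, r3, r4, r5, r6, r7.trans ?_, r8⟩
  gcongr

end Pool.Agent.W_626a77_h71
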