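import Mathlib

/-!
Geometry of numbers page for MP_626a77_co (helper71): lattice points of balls in a discrete
subgroup of a finite dimensional real normed space.
-/

set_option autoImplicit false

open scoped Pointwise
open Module

namespace Pool.Agent.W_626a77_h71

section Flag

variable {E : Type*} [AddCommGroup E] [Module ℝ E]

/-- a flag of vectors and functionals for a finite set of real rank at least `k` -/
theorem exists_flag (S : Finset E) (k : ℕ)
    (hk : k ≤ Module.finrank ℝ (Submodule.span ℝ (S : Set E))) :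
    ∃ (v : Fin k → E) (l : Fin k → (E →ₗ[ℝ] ℝ)), (∀ i, v i ∈ S) ∧ (∀ i, l i (v i) = 1) ∧
      (∀ i j, j < i → l i (v j) = 0) ∧ (∀ i, ∀ x ∈ S, |l i x| ≤ 1) := by
  induction k with
  | zero => exact ⟨fun i => i.elim0, fun i => i.elim0, fun i => i.elim0, fun i => i.elim0,
      fun i => i.elim0, fun i => i.elim0⟩
  | succ k ih =>
    obtain ⟨v, l, hv, h1, h0, hb⟩ := ih (by omega)
    -- the span of the `v i` is not everything
    have hfin : FiniteDimensional ℝ (Submodule.span ℝ (S : Set E)) :=
      FiniteDimensional.span_finset ℝ S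
    have hW : ∃ x ∈ S, x ∉ Submodule.span ℝ (Set.range v) := by
      by_contra hcon
      push Not at hcon
      have hle : Submodule.span ℝ (S : Set E) ≤ Submodule.span ℝ (Set.range v) :=
        Submodule.span_le.2 (fun x hx => hcon x hx)
      have hfd : FiniteDimensional ℝ (Submodule.span ℝ (Set.range v)) :=
        FiniteDimensional.span_of_finite ℝ (Set.finite_range v)
      have h2 := Submodule.finrank_mono hle
      have h3 := finrank_range_le_card (R := ℝ) v
      rw [Set.finrank] at h3
      simp only [Fintype.card_fin] at h3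
      omega
    obtain ⟨x, hxS, hx⟩ := hW
    obtain ⟨f, hfx, hker⟩ := Submodule.exists_le_ker_of_notMem hx
    obtain ⟨w, hwS, hw⟩ := Finset.exists_max_image S (fun y => |f y|) ⟨x, hxS⟩
    have hw0 : 0 < |f w| := lt_of_lt_of_le (abs_pos.2 hfx) (hw x hxS)
    have hw0' : f w ≠ 0 := abs_pos.1 hw0
    refine ⟨Fin.snoc v w, Fin.snoc l ((f w)⁻¹ • f), ?_, ?_, ?_, ?_⟩
    · intro i
      refine Fin.lastCases ?_ (fun j => ?_) i
      · simpa using hwS
      · simpa using hv j
    · intro i
      refine Fin.lastCases ?_ (fun j => ?_) i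
      · simp [hw0']
      · simpa using h1 j
    · intro i
      refine Fin.lastCases ?_ (fun j => ?_) i
      · intro j
        refine Fin.lastCases ?_ (fun j' => ?_) j
        · intro h; exact absurd h (lt_irrefl _)
        · intro _
          have : v j' ∈ LinearMap.ker f := hker (Submodule.subset_span ⟨j', rfl⟩)
          rw [LinearMap.mem_ker] at this
          simp [this]
      · intro j'
        refine Fin.lastCases ?_ (fun j'' => ?_) j'
        · intro h
          exact absurd h (not_lt.2 (Fin.le_last _))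
        · intro h
          simpa using h0 j j'' (by simpa using h)
    · intro i
      refine Fin.lastCases ?_ (fun j => ?_) i
      · intro y hy
        simp only [Fin.snoc_last, LinearMap.smul_apply, smul_eq_mul, abs_mul, abs_inv]
        rw [inv_mul_le_iff₀ hw0, mul_one]
        exact hw y hy
      · intro y hy
        simpa using hb j y hy

/-- the map `(p, a) ↦ p + 3 ∑ a_i v_i` is injective -/
theorem flag_inj (S : Finset E) (k : ℕ) (v : Fin k → E) (l : Fin k → (E →ₗ[ℝ] ℝ))
    (h1 : ∀ i, l i (v i) = 1) (h0 : ∀ i j, j < i → l i (v j) = 0)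
    (hb : ∀ i, ∀ x ∈ S, |l i x| ≤ 1) (p q : E) (hp : p ∈ S) (hq : q ∈ S) (a b : Fin k → ℤ)
    (h : p + ∑ i, (3 * (a i : ℝ)) • v i = q + ∑ i, (3 * (b i : ℝ)) • v i) : p = q ∧ a = b := by
  have key : ∀ n : ℕ, ∀ i : Fin k, k - n ≤ (i : ℕ) → a i = b i := by
    intro n
    induction n with
    | zero => intro i hi; exact absurd i.2 (by omega)
    | succ n ih =>
      intro i hi
      by_cases hlt : k - n ≤ (i : ℕ)
      · exact ih i hlt
      · have hgt : ∀ j : Fin k, i < j → a j = b j := by
          intro j hj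
          apply ih j
          have : (i : ℕ) < (j : ℕ) := hj
          omega
        have h2 := congrArg (l i) h
        simp only [map_add, map_sum, map_smul, smul_eq_mul] at h2
        have h3 : ∑ j, 3 * (a j : ℝ) * l i (v j) - ∑ j, 3 * (b j : ℝ) * l i (v j)
            = 3 * ((a i : ℝ) - (b i : ℝ)) := by
          rw [← Finset.sum_sub_distrib]
          rw [Finset.sum_eq_single i]
          · rw [h1 i]; ring
          · intro j _ hji
            rcases lt_or_gt_of_ne hji with hj | hj
            · rw [h0 i j hj]; ring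
            · rw [hgt j hj]; ring
          · intro hi'; exact absurd (Finset.mem_univ i) hi'
        have h4 : 3 * ((a i : ℝ) - (b i : ℝ)) = l i q - l i p := by linarith
        have h5 : |3 * ((a i : ℝ) - (b i : ℝ))| ≤ 2 := by
          rw [h4]
          have := hb i p hp
          have := hb i q hq
          calc |l i q - l i p| ≤ |l i q| + |l i p| := abs_sub _ _
            _ ≤ 2 := by linarith
        have h6 : |a i - b i| < 1 := by
          have : |((a i - b i : ℤ) : ℝ)| < 1 := by
            push_cast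
            rw [abs_mul] at h5
            have : |(3:ℝ)| = 3 := by norm_num
            rw [this] at h5
            linarith
          exact_mod_cast this
        rw [Int.abs_lt_one_iff] at h6
        omega
  have hab : a = b := by
    funext i
    exact key k i (by omega)
  subst hab
  exact ⟨add_right_cancel h, rfl⟩

end Flag

section Normed

variable {E : Type*} [NormedAddCommGroup E] [NormedSpace ℝ E]

/-- lattice points in the closed ball of radius `s` -/
noncomputable def S (L : AddSubgroup E) (hL : ∀ s : ℝ, {v : E | v ∈ L ∧ ‖v‖ ≤ s}.Finite) (s : ℝ) :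
    Finset E := (hL s).toFinset

omit [NormedSpace ℝ E] in
theorem mem_S (L : AddSubgroup E) (hL : ∀ s : ℝ, {v : E | v ∈ L ∧ ‖v‖ ≤ s}.Finite) (s : ℝ)
    (v : E) : v ∈ S L hL s ↔ v ∈ L ∧ ‖v‖ ≤ s := by
  simp [S]

variable (L : AddSubgroup E) (hL : ∀ s : ℝ, {v : E | v ∈ L ∧ ‖v‖ ≤ s}.Finite)

omit [NormedSpace ℝ E] in
theorem S_mono {s t : ℝ} (h : s ≤ t) : S L hL s ⊆ S L hL t := by
  intro v hv
  rw [mem_S] at hv ⊢
  exact ⟨hv.1, hv.2.trans h⟩

omit [NormedSpace ℝ E] in
theorem zero_mem_S {s : ℝ} (h : 0 ≤ s) : (0 : E) ∈ S L hL s := by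
  rw [mem_S]
  exact ⟨L.zero_mem, by simpa using h⟩

theorem S_card_pos {s : ℝ} (h : 0 ≤ s) : 0 < (S L hL s).card :=
  Finset.card_pos.2 ⟨0, zero_mem_S L hL h⟩

/-- DIMENSION LEMMA -/
theorem dim_lemma (s : ℝ) (hs : 0 ≤ s) (k m : ℕ) (hk0 : 0 < k) (hm : 0 < m)
    (hk : k ≤ Module.finrank ℝ (Submodule.span ℝ (S L hL s : Set E))) :
    m ^ k * (S L hL s).card ≤ (S L hL (3 * m * k * s)).card := by
  classical
  obtain ⟨v, l, hv, h1, h0, hb⟩ := exists_flag (S L hL s) k hk
  let F : (Fin k → Fin m) × E → E := fun x => x.2 + ∑ i, (3 * (((x.1 i : ℕ) : ℤ) : ℝ)) • v i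
  have hcard : ((Finset.univ : Finset (Fin k → Fin m)) ×ˢ (S L hL s)).card
      = m ^ k * (S L hL s).card := by
    simp
  rw [← hcard]
  apply Finset.card_le_card_of_injOn F
  · intro x hx
    rw [Finset.mem_coe, Finset.mem_product] at hx
    have hx2 := (mem_S L hL s x.2).1 hx.2
    rw [Finset.mem_coe, mem_S]
    constructor
    · apply L.add_mem hx2.1
      apply L.sum_mem
      intro i _
      have hvi := ((mem_S L hL s _).1 (hv i)).1
      have : (3 * (((x.1 i : ℕ) : ℤ) : ℝ)) • v i = (3 * ((x.1 i : ℕ) : ℤ)) • v i := by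
        rw [← Int.cast_smul_eq_zsmul ℝ]
        push_cast
        rfl
      rw [this]
      exact L.zsmul_mem hvi _
    · have hsum : ‖∑ i, (3 * (((x.1 i : ℕ) : ℤ) : ℝ)) • v i‖ ≤ k * (3 * (m - 1) * s) := by
        calc ‖∑ i, (3 * (((x.1 i : ℕ) : ℤ) : ℝ)) • v i‖
            ≤ ∑ i : Fin k, ‖(3 * (((x.1 i : ℕ) : ℤ) : ℝ)) • v i‖ := norm_sum_le _ _
          _ ≤ ∑ _i : Fin k, (3 * ((m:ℝ) - 1) * s) := by
              apply Finset.sum_le_sum
              intro i _
              rw [norm_smul]
              have hvi := ((mem_S L hL s _).1 (hv i)).2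
              have h3 : ‖(3 * (((x.1 i : ℕ) : ℤ) : ℝ))‖ ≤ 3 * ((m:ℝ) - 1) := by
                rw [Real.norm_eq_abs, abs_of_nonneg (by positivity)]
                have : ((x.1 i : ℕ) : ℝ) + 1 ≤ m := by
                  have := (x.1 i).2
                  exact_mod_cast this
                push_cast
                linarith
              have h4 : (0:ℝ) ≤ 3 * ((m:ℝ) - 1) := by
                have : (1:ℝ) ≤ m := by exact_mod_cast hm
                linarith
              exact mul_le_mul h3 hvi (norm_nonneg _) h4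
          _ = k * (3 * (m - 1) * s) := by simp
      have hk1 : (1:ℝ) ≤ k := by exact_mod_cast hk0
      calc ‖F x‖ ≤ ‖x.2‖ + ‖∑ i, (3 * (((x.1 i : ℕ) : ℤ) : ℝ)) • v i‖ := norm_add_le _ _
        _ ≤ s + k * (3 * (m - 1) * s) := add_le_add hx2.2 hsum
        _ ≤ 3 * m * k * s := by nlinarith [mul_nonneg hs (sub_nonneg.2 hk1)]
  · intro x hx y hy hxy
    rw [Finset.mem_coe, Finset.mem_product] at hx hy
    have := flag_inj (S L hL s) k v l h1 h0 hb x.2 y.2 hx.2 hy.2
      (fun i => ((x.1 i : ℕ) : ℤ)) (fun i => ((y.1 i : ℕ) : ℤ)) hxy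
    refine Prod.ext ?_ this.1
    funext i
    have h2 := congrFun this.2 i
    simp only [Nat.cast_inj] at h2
    exact Fin.ext h2

omit [NormedSpace ℝ E] in
/-- maximal separated subset -/
theorem exists_sep (X : Finset E) (r : ℝ) :
    ∃ P ⊆ X, (∀ p ∈ P, ∀ q ∈ P, p ≠ q → r < ‖p - q‖) ∧ ∀ x ∈ X, ∃ p ∈ P, ‖x - p‖ ≤ r ∨ x = p := by
  classical
  let F : Finset (Finset E) := X.powerset.filter (fun P => ∀ p ∈ P, ∀ q ∈ P, p ≠ q → r < ‖p - q‖)
  have hF : F.Nonempty := ⟨∅, by simp [F]⟩
  obtain ⟨P, hP, hmax⟩ := Finset.exists_max_image F Finset.card hF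
  simp only [F, Finset.mem_filter, Finset.mem_powerset] at hP
  refine ⟨P, hP.1, hP.2, ?_⟩
  intro x hx
  by_contra hcon
  push Not at hcon
  have hxP : x ∉ P := fun h => (hcon x h).2 rfl
  have hins : insert x P ∈ F := by
    simp only [F, Finset.mem_filter, Finset.mem_powerset]
    refine ⟨Finset.insert_subset hx hP.1, ?_⟩
    intro p hp q hq hpq
    rw [Finset.mem_insert] at hp hq
    rcases hp with rfl | hp
    · rcases hq with rfl | hq
      · exact absurd rfl hpq
      · exact (hcon q hq).1
    · rcases hq with rfl | hq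
      · rw [norm_sub_rev]; exact (hcon p hp).1
      · exact hP.2 p hp q hq hpq
  have := hmax _ hins
  rw [Finset.card_insert_of_notMem hxP] at this
  omega

/-- COVERING LEMMA: `S t` is covered by few translates of `S r` -/
theorem cover_lemma (t r : ℝ) (hr : 0 ≤ r) :
    ∃ P ⊆ S L hL t, P.card * (S L hL (r / 2)).card ≤ (S L hL (t + r / 2)).card ∧
      ∀ x ∈ S L hL t, ∃ p ∈ P, x - p ∈ S L hL r := by
  classical
  obtain ⟨P, hPX, hsep, hcov⟩ := exists_sep (S L hL t) r
  refine ⟨P, hPX, ?_, ?_⟩
  · rw [← Finset.card_product]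
    apply Finset.card_le_card_of_injOn (fun x => x.1 + x.2)
    · intro x hx
      rw [Finset.mem_coe, Finset.mem_product] at hx
      have h1 := (mem_S L hL _ _).1 (hPX hx.1)
      have h2 := (mem_S L hL _ _).1 hx.2
      rw [Finset.mem_coe, mem_S]
      exact ⟨L.add_mem h1.1 h2.1, (norm_add_le _ _).trans (add_le_add h1.2 h2.2)⟩
    · intro x hx y hy hxy
      rw [Finset.mem_coe, Finset.mem_product] at hx hy
      have h2 := (mem_S L hL _ _).1 hx.2
      have h3 := (mem_S L hL _ _).1 hy.2
      have hxy' : x.1 + x.2 = y.1 + y.2 := hxy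
      by_cases h : x.1 = y.1
      · refine Prod.ext h ?_
        rw [h] at hxy'
        exact add_left_cancel hxy'
      · exfalso
        have h4 := hsep x.1 hx.1 y.1 hy.1 h
        have h5 : x.1 - y.1 = y.2 - x.2 := by
          rw [sub_eq_sub_iff_add_eq_add, hxy', add_comm]
        rw [h5] at h4
        have := norm_sub_le y.2 x.2
        linarith [h2.2, h3.2]
  · intro x hx
    obtain ⟨p, hp, h⟩ := hcov x hx
    refine ⟨p, hp, ?_⟩
    have h1 := (mem_S L hL _ _).1 (hPX hp)
    have h2 := (mem_S L hL _ _).1 hx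
    rw [mem_S]
    refine ⟨L.sub_mem h2.1 h1.1, ?_⟩
    rcases h with h | h
    · exact h
    · subst h; simpa using hr

/-- PACKING: halving the radius loses at most a factor `5 ^ d` -/
theorem half_lemma [FiniteDimensional ℝ E] (s : ℝ) (hs : 0 < s) :
    (S L hL s).card ≤ 5 ^ (Module.finrank ℝ (Submodule.span ℝ (S L hL s : Set E)))
      * (S L hL (s / 2)).card := by
  classical
  obtain ⟨P, hPX, hsep, hcov⟩ := exists_sep (S L hL s) (s / 2)
  have h1 : P.card ≤ 5 ^ (Module.finrank ℝ (Submodule.span ℝ (S L hL s : Set E))) := by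
    let V := Submodule.span ℝ (S L hL s : Set E)
    have hmem : ∀ p ∈ P, (2 / s) • p ∈ V := fun p hp =>
      V.smul_mem _ (Submodule.subset_span (hPX hp))
    let Q : Finset V := P.attach.image (fun p => (⟨(2 / s) • p.1, hmem p.1 p.2⟩ : V))
    have hs2 : (0:ℝ) < 2 / s := by positivity
    have hQc : Q.card = P.card := by
      rw [Finset.card_image_of_injective, Finset.card_attach]
      intro p q hpq
      have h := congrArg Subtype.val hpq
      simp only at h
      exact Subtype.ext (smul_right_injective E hs2.ne' h)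
    rw [← hQc]
    apply Besicovitch.card_le_of_separated
    · intro c hc
      simp only [Q, Finset.mem_image, Finset.mem_attach, true_and] at hc
      obtain ⟨p, rfl⟩ := hc
      have h2 := ((mem_S L hL _ _).1 (hPX p.2)).2
      change ‖(2 / s) • p.1‖ ≤ 2
      rw [norm_smul, Real.norm_of_nonneg hs2.le]
      calc 2 / s * ‖p.1‖ ≤ 2 / s * s := by gcongr
        _ = 2 := by field_simp
    · intro c hc d hd hcd
      simp only [Q, Finset.mem_image, Finset.mem_attach, true_and] at hc hd
      obtain ⟨p, rfl⟩ := hc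
      obtain ⟨q, rfl⟩ := hd
      have hpq : p.1 ≠ q.1 := by
        intro h
        apply hcd
        apply Subtype.ext
        change (2 / s) • p.1 = (2 / s) • q.1
        rw [h]
      have h3 := hsep p.1 p.2 q.1 q.2 hpq
      change 1 ≤ ‖(2 / s) • p.1 - (2 / s) • q.1‖
      rw [← smul_sub, norm_smul, Real.norm_of_nonneg hs2.le]
      calc (1:ℝ) = 2 / s * (s / 2) := by field_simp
        _ ≤ 2 / s * ‖p.1 - q.1‖ := by gcongr
  refine le_trans ?_ (Nat.mul_le_mul_right _ h1)
  rw [← Finset.card_product]
  have hsub : S L hL s ⊆ (P ×ˢ S L hL (s / 2)).image (fun x => x.1 + x.2) := by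
    intro x hx
    obtain ⟨p, hp, h⟩ := hcov x hx
    rw [Finset.mem_image]
    refine ⟨(p, x - p), ?_, by simp⟩
    rw [Finset.mem_product]
    refine ⟨hp, ?_⟩
    have h1 := (mem_S L hL _ _).1 (hPX hp)
    have h2 := (mem_S L hL _ _).1 hx
    rw [mem_S]
    refine ⟨L.sub_mem h2.1 h1.1, ?_⟩
    rcases h with h | h
    · exact h
    · subst h; simpa using by positivity
  exact (Finset.card_le_card hsub).trans Finset.card_image_le

end Normed

end Pool.Agent.W_626a77_h71
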