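import Pool.Agent.W_626a77_h71.Lat

/-!
Geometry of numbers page for MP_626a77_co (helper71): parametrisation of the lattice points of
small balls by `ℤ ^ d ∩ B`, and the final assembly.
-/

set_option autoImplicit false

open scoped Pointwise
open Module

namespace Pool.Agent.W_626a77_h71

variable {E : Type*} [NormedAddCommGroup E] [NormedSpace ℝ E]
variable (L : AddSubgroup E) (hL : ∀ s : ℝ, {v : E | v ∈ L ∧ ‖v‖ ≤ s}.Finite)

include hL in
omit [NormedSpace ℝ E] in
/-- shortest vector -/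
theorem exists_min : ∃ r : ℝ, 0 < r ∧ ∀ v ∈ L, v ≠ 0 → r < ‖v‖ := by
  classical
  let X := (S L hL 1).erase 0
  by_cases hX : X.Nonempty
  · obtain ⟨w, hw, hmin⟩ := Finset.exists_min_image X (fun v => ‖v‖) hX
    have hw0 : 0 < ‖w‖ := norm_pos_iff.2 (Finset.ne_of_mem_erase hw)
    refine ⟨‖w‖ / 2, by positivity, ?_⟩
    intro v hv hv0
    by_cases h1 : ‖v‖ ≤ 1
    · have := hmin v (Finset.mem_erase.2 ⟨hv0, (mem_S L hL 1 v).2 ⟨hv, h1⟩⟩)
      linarith
    · have hw1 := ((mem_S L hL 1 w).1 (Finset.mem_of_mem_erase hw)).2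
      push Not at h1
      linarith
  · refine ⟨1, one_pos, ?_⟩
    intro v hv hv0
    by_contra h
    push Not at h
    exact hX ⟨v, Finset.mem_erase.2 ⟨hv0, (mem_S L hL 1 v).2 ⟨hv, h⟩⟩⟩

include hL in
omit [NormedSpace ℝ E] in
theorem discrete_of_le (M : Submodule ℤ E) (hM : ∀ v ∈ M, v ∈ L) : DiscreteTopology M := by
  obtain ⟨r, hr, h⟩ := exists_min L hL
  apply DiscreteTopology.of_forall_le_dist hr
  intro x y hxy
  have h1 : (x : E) - y ∈ L := L.sub_mem (hM _ x.2) (hM _ y.2)
  have h2 : (x : E) - y ≠ 0 := by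
    intro h0
    exact hxy (Subtype.ext (sub_eq_zero.1 h0))
  have h3 := h _ h1 h2
  rw [Subtype.dist_eq, dist_eq_norm]
  exact h3.le

/-- a basis of the lattice generated by the lattice points of the ball of radius `δ` -/
theorem exists_basis [FiniteDimensional ℝ E] (δ : ℝ) (d : ℕ)
    (hd : finrank ℝ (Submodule.span ℝ (S L hL δ : Set E)) = d) :
    ∃ b : Fin d → E, LinearIndependent ℝ b ∧ (∀ i, b i ∈ L) ∧
      ∀ v ∈ S L hL δ, ∃ x : Fin d → ℤ, v = ∑ i, (x i : ℝ) • b i := by
  classical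
  let M : Submodule ℤ E := Submodule.span ℤ (S L hL δ : Set E)
  have hML : ∀ v ∈ M, v ∈ L := by
    intro v hv
    have : M ≤ AddSubgroup.toIntSubmodule L := by
      apply Submodule.span_le.2
      intro x hx
      exact ((mem_S L hL δ x).1 hx).1
    exact this hv
  have hdisc : DiscreteTopology M := discrete_of_le L hL M hML
  have hrank : finrank ℝ (Submodule.span ℝ (S L hL δ : Set E)) = finrank ℤ M :=
    Real.finrank_eq_int_finrank_of_discrete (s := (S L hL δ : Set E)) hdisc
  have : Module.Finite ℤ M := inferInstance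
  have : Module.Free ℤ M := inferInstance
  let B : Basis (Fin d) ℤ M :=
    (Module.finBasis ℤ M).reindex (finCongr (hrank.symm.trans hd))
  have hexp : ∀ v ∈ S L hL δ, ∃ x : Fin d → ℤ,
        v = ∑ i, (x i : ℝ) • (B i : E) := by
    intro v hv
    have hvM : v ∈ M := Submodule.subset_span hv
    refine ⟨fun i => B.repr ⟨v, hvM⟩ i, ?_⟩
    have h1 := B.sum_repr ⟨v, hvM⟩
    have h2 := congrArg (fun z : M => (z : E)) h1
    simp only [Submodule.coe_sum, Submodule.coe_smul] at h2
    refine h2.symm.trans ?_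
    apply Finset.sum_congr rfl
    intro i _
    rw [Int.cast_smul_eq_zsmul]
  refine ⟨fun i => (B i : E), ?_, fun i => hML _ (B i).2, hexp⟩
  rw [linearIndependent_iff_card_eq_finrank_span, Fintype.card_fin, Set.finrank]
  have hspan : Submodule.span ℝ (S L hL δ : Set E)
      = Submodule.span ℝ (Set.range (fun i => (B i : E))) := by
    apply le_antisymm
    · apply Submodule.span_le.2
      intro v hv
      obtain ⟨x, hx⟩ := hexp v hv
      rw [hx]
      apply Submodule.sum_mem
      intro i _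
      exact Submodule.smul_mem _ _ (Submodule.subset_span ⟨i, rfl⟩)
    · apply Submodule.span_le.2
      rintro _ ⟨i, rfl⟩
      exact Submodule.span_le_restrictScalars ℤ ℝ (S L hL δ : Set E) (B i).2
  rw [← hspan, hd]

omit [NormedSpace ℝ E] in
/-- small balls are eventually trivial -/
theorem exists_small (δ : ℝ) (N : ℕ) (hN : 0 < N) :
    ∃ j : ℕ, (S L hL (δ / 2 ^ j)).card ≤ N := by
  classical
  obtain ⟨r, hr, h⟩ := exists_min L hL
  obtain ⟨j, hj⟩ := exists_nat_gt (δ / r)
  refine ⟨j, le_trans ?_ hN⟩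
  rw [Finset.card_le_one]
  have key : ∀ a ∈ S L hL (δ / 2 ^ j), a = 0 := by
    intro a ha
    rw [mem_S] at ha
    by_contra h0
    have h1 := h a ha.1 h0
    have h2 : (j : ℝ) < 2 ^ j := by exact_mod_cast Nat.lt_two_pow_self
    have h3 : δ / 2 ^ j < r := by
      rw [div_lt_iff₀ (by positivity)]
      rw [div_lt_iff₀ hr] at hj
      nlinarith
    linarith [ha.2]
  intro a ha b hb
  rw [key a ha, key b hb]

/-- ASSEMBLY: from a covering of `A` by few translates of the image of a ball to a centred convex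
progression with at most `|A|` lattice points. -/
theorem assembly [FiniteDimensional ℝ E] (π : E →ₗ[ℝ] ℝ) (hπ : ∀ v ∈ L, ∃ n : ℤ, π v = n)
    (δ : ℝ) (hδ : 0 < δ) (D : ℕ) (hD : finrank ℝ (Submodule.span ℝ (S L hL δ : Set E)) ≤ D)
    (A : Finset ℤ) (hA : A.Nonempty) (c : ℝ) (hc : 1 ≤ c)
    (h2 : ((S L hL (2 * δ)).card : ℝ) ≤ c * A.card)
    (h3 : (A.card : ℝ) ≤ c * (S L hL δ).card)
    (T0 : Finset ℤ) (hT0 : ∀ a ∈ A, ∃ t ∈ T0, ∃ v ∈ S L hL δ, (a : ℝ) = t + π v) :
    ∃ (d : ℕ) (B : Set (Fin d → ℝ)) (v : Fin d → ℤ) (T : Finset ℤ), d ≤ D ∧ Convex ℝ B ∧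
      IsCompact B ∧ (interior B).Nonempty ∧ (∀ x ∈ B, -x ∈ B) ∧
      ({x : Fin d → ℤ | (fun i => (x i : ℝ)) ∈ B}.ncard ≤ A.card) ∧
      ((T.card : ℝ) ≤ T0.card * (c ^ 2 * 5 ^ (2 * D))) ∧
      ∀ a ∈ A, ∃ t ∈ T, ∃ x : Fin d → ℤ,
        (fun i => (x i : ℝ)) ∈ B ∧ a = t + ∑ i, v i * x i := by
  classical
  have hA0 : 0 < A.card := Finset.card_pos.2 hA
  obtain ⟨d, hd⟩ : ∃ d, finrank ℝ (Submodule.span ℝ (S L hL δ : Set E)) = d := ⟨_, rfl⟩
  obtain ⟨b, hb, hbL, hexp⟩ := exists_basis L hL δ d hd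
  -- the radius
  have hex := exists_small L hL δ A.card hA0
  let j := Nat.find hex
  have hj : (S L hL (δ / 2 ^ j)).card ≤ A.card := Nat.find_spec hex
  set s : ℝ := δ / 2 ^ j with hs
  have hs0 : 0 < s := by positivity
  have hsδ : s ≤ δ := by
    rw [hs]
    apply div_le_self hδ.le
    exact one_le_pow₀ (by norm_num)
  have hfr : ∀ t ≤ δ, finrank ℝ (Submodule.span ℝ (S L hL t : Set E)) ≤ D := by
    intro t ht
    refine le_trans ?_ hD
    apply Submodule.finrank_mono
    apply Submodule.span_mono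
    exact_mod_cast S_mono L hL ht
  have h5 : ∀ t, 0 < t → t ≤ δ → ((S L hL t).card : ℝ) ≤ 5 ^ D * (S L hL (t / 2)).card := by
    intro t ht0 ht
    have h := half_lemma L hL t ht0
    have h' : (S L hL t).card ≤ 5 ^ D * (S L hL (t / 2)).card :=
      h.trans (Nat.mul_le_mul_right _ (Nat.pow_le_pow_right (by norm_num) (hfr t ht)))
    exact_mod_cast h'
  have hlow : (A.card : ℝ) ≤ c * 5 ^ (2 * D) * (S L hL (s / 2)).card := by
    have h5D : (1:ℝ) ≤ 5 ^ D := one_le_pow₀ (by norm_num)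
    have hcpos : (0:ℝ) ≤ ((S L hL (s / 2)).card : ℝ) := by positivity
    rcases Nat.eq_zero_or_pos j with hj0 | hj0
    · have hsδ' : s = δ := by rw [hs, hj0]; simp
      calc (A.card : ℝ) ≤ c * (S L hL δ).card := h3
        _ ≤ c * (5 ^ D * (S L hL (δ / 2)).card) := by
            gcongr
            exact h5 δ hδ le_rfl
        _ = c * (5 ^ D * 1) * (S L hL (s / 2)).card := by rw [hsδ']; ring
        _ ≤ c * (5 ^ D * 5 ^ D) * (S L hL (s / 2)).card := by gcongr
        _ = c * 5 ^ (2 * D) * (S L hL (s / 2)).card := by rw [two_mul, pow_add]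
    · have hmin := Nat.find_min hex (m := j - 1) (by omega)
      push Not at hmin
      have h2s : δ / 2 ^ (j - 1) = 2 * s := by
        rw [hs]
        obtain ⟨i, hi⟩ : ∃ i, j = i + 1 := ⟨j - 1, by omega⟩
        rw [hi]
        simp only [Nat.add_sub_cancel]
        rw [pow_succ]
        field_simp
      rw [h2s] at hmin
      have h2sδ : 2 * s ≤ δ := by
        rw [← h2s]
        apply div_le_self hδ.le
        exact one_le_pow₀ (by norm_num)
      have e1 := h5 (2 * s) (by positivity) h2sδ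
      have e2 := h5 s hs0 hsδ
      rw [show 2 * s / 2 = s by ring] at e1
      calc (A.card : ℝ) ≤ (S L hL (2 * s)).card := by exact_mod_cast hmin.le
        _ ≤ 5 ^ D * (S L hL s).card := e1
        _ ≤ 5 ^ D * (5 ^ D * (S L hL (s / 2)).card) := by gcongr
        _ = 1 * 5 ^ (2 * D) * (S L hL (s / 2)).card := by rw [two_mul, pow_add]; ring
        _ ≤ c * 5 ^ (2 * D) * (S L hL (s / 2)).card := by gcongr
  obtain ⟨P, hPS, hPc, hPcov⟩ := cover_lemma L hL δ s hs0.le
  have hPcard : (P.card : ℝ) ≤ c ^ 2 * 5 ^ (2 * D) := by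
    have e0 : (0:ℝ) < ((S L hL (s / 2)).card : ℝ) := by
      exact_mod_cast S_card_pos L hL (by positivity)
    have e1 : (P.card : ℝ) * (S L hL (s / 2)).card ≤ (S L hL (δ + s / 2)).card := by
      exact_mod_cast hPc
    have e2 : ((S L hL (δ + s / 2)).card : ℝ) ≤ (S L hL (2 * δ)).card := by
      have : δ + s / 2 ≤ 2 * δ := by linarith
      exact_mod_cast Finset.card_le_card (S_mono L hL this)
    have e3 : (P.card : ℝ) * (S L hL (s / 2)).card
        ≤ (c ^ 2 * 5 ^ (2 * D)) * (S L hL (s / 2)).card := by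
      calc (P.card : ℝ) * (S L hL (s / 2)).card ≤ c * A.card := e1.trans (e2.trans h2)
        _ ≤ c * (c * 5 ^ (2 * D) * (S L hL (s / 2)).card) := by gcongr
        _ = (c ^ 2 * 5 ^ (2 * D)) * (S L hL (s / 2)).card := by ring
    exact le_of_mul_le_mul_right e3 e0
  choose πz hπz using hπ
  let v : Fin d → ℤ := fun i => πz (b i) (hbL i)
  have hv : ∀ i, π (b i) = v i := fun i => hπz _ _
  let πP : E → ℤ := fun p => if h : p ∈ L then πz p h else 0
  have hπP : ∀ p ∈ L, π p = πP p := by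
    intro p hp
    simp only [πP, hp, dif_pos]
    exact hπz _ _
  let f : (Fin d → ℝ) →ₗ[ℝ] E := Fintype.linearCombination ℝ b
  have hf : ∀ x, f x = ∑ i, x i • b i := fun x => Fintype.linearCombination_apply ℝ b x
  have hfinj : Function.Injective f := by
    rw [injective_iff_map_eq_zero]
    intro x hx
    rw [hf] at hx
    funext i
    exact Fintype.linearIndependent_iff.1 hb x hx i
  have hfcont : Continuous f := f.continuous_of_finiteDimensional
  refine ⟨d, {x | ‖f x‖ ≤ s}, v, (T0 ×ˢ P).image (fun x => x.1 + πP x.2), hd ▸ hD,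
    ?_, ?_, ?_, ?_, ?_, ?_, ?_⟩
  · have : {x : Fin d → ℝ | ‖f x‖ ≤ s} = f ⁻¹' (Metric.closedBall 0 s) := by
      ext x; simp
    rw [this]
    exact (convex_closedBall (0 : E) s).linear_preimage f
  · have : {x : Fin d → ℝ | ‖f x‖ ≤ s} = f ⁻¹' (Metric.closedBall 0 s) := by
      ext x; simp
    rw [this]
    have hce : Topology.IsClosedEmbedding f :=
      LinearMap.isClosedEmbedding_of_injective (LinearMap.ker_eq_bot.2 hfinj)
    exact hce.isCompact_preimage (isCompact_closedBall _ _)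
  · refine ⟨0, ?_⟩
    rw [mem_interior]
    refine ⟨f ⁻¹' (Metric.ball 0 s), ?_, Metric.isOpen_ball.preimage hfcont, ?_⟩
    · intro x hx
      rw [Set.mem_preimage, mem_ball_zero_iff] at hx
      exact hx.le
    · simp [hs0]
  · intro x hx
    simp only [Set.mem_ofPred_eq, map_neg, norm_neg] at hx ⊢
    exact hx
  · refine le_trans ?_ hj
    rw [← Set.ncard_coe_finset]
    apply Set.ncard_le_ncard_of_injOn (fun x : Fin d → ℤ => f (fun i => (x i : ℝ)))
    · intro x hx
      rw [Set.mem_ofPred_eq, Set.mem_ofPred_eq] at hx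
      rw [Finset.mem_coe, mem_S]
      refine ⟨?_, hx⟩
      rw [hf]
      apply L.sum_mem
      intro i _
      rw [Int.cast_smul_eq_zsmul]
      exact L.zsmul_mem (hbL i) _
    · intro x _ y _ hxy
      have := hfinj hxy
      funext i
      have h := congrFun this i
      simpa using h
  · calc (((T0 ×ˢ P).image (fun x => x.1 + πP x.2)).card : ℝ) ≤ ((T0 ×ˢ P).card : ℝ) := by
          exact_mod_cast Finset.card_image_le
      _ = T0.card * P.card := by rw [Finset.card_product]; push_cast; ring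
      _ ≤ T0.card * (c ^ 2 * 5 ^ (2 * D)) := by gcongr
  · intro a ha
    obtain ⟨t, ht, w, hw, haw⟩ := hT0 a ha
    obtain ⟨p, hp, hwp⟩ := hPcov w hw
    obtain ⟨x, hx⟩ := hexp (w - p) (S_mono L hL hsδ hwp)
    refine ⟨t + πP p, Finset.mem_image.2 ⟨(t, p), Finset.mem_product.2 ⟨ht, hp⟩, rfl⟩, x, ?_, ?_⟩
    · rw [Set.mem_ofPred_eq, hf, ← hx]
      exact ((mem_S L hL _ _).1 hwp).2
    · have hpL := ((mem_S L hL _ _).1 (hPS hp)).1
      have h1 : π w = π p + π (w - p) := by rw [map_sub]; ring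
      have h2 : π (w - p) = ∑ i, (v i : ℝ) * x i := by
        rw [hx, map_sum]
        apply Finset.sum_congr rfl
        intro i _
        rw [map_smul, hv i, smul_eq_mul, mul_comm]
      have h3 : (a : ℝ) = ((t + πP p + ∑ i, v i * x i : ℤ) : ℝ) := by
        push_cast
        rw [haw, h1, h2, hπP p hpL]
        ring
      exact_mod_cast h3

end Pool.Agent.W_626a77_h71
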